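import Pool.Agent.Lib.MP_587a88_co.All.Every

open Pointwise

namespace Pool.Agent.Results.MP_587a88_co.Bieberbach

open Pool.Agent.Lib.MP_587a88_co

/-- `κ_k(S)`: the least value of `|XS| - |X|` over finite sets `X` with `|X| ≥ k` -/
noncomputable def kappa {G : Type} [Group G] (k : ℕ) (S : Set G) : ℕ :=
  sInf {m | ∃ X : Set G, X.Finite ∧ k ≤ X.ncard ∧ (X * S).ncard = X.ncard + m}

lemma sg_cast (x : ℤ) : ((sg x : ℤ) : ZMod 2) = 1 := by
  rcases sg_cases x with ⟨-, e⟩ | ⟨-, e⟩ <;> rw [e] <;> decide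

/-- the coordinates modulo two -/
def par2 : PG →* Multiplicative (ZMod 2 × ZMod 2 × ZMod 2) where
  toFun v := Multiplicative.ofAdd ((v.a : ZMod 2), (v.b : ZMod 2), (v.c : ZMod 2))
  map_one' := by
    change Multiplicative.ofAdd (((0 : ℤ) : ZMod 2), ((0 : ℤ) : ZMod 2), ((0 : ℤ) : ZMod 2)) = 1
    simp [Prod.mk_zero_zero]
  map_mul' v w := by
    rw [← ofAdd_add]
    simp [sg_cast]

lemma mem_ker {v : PG} : v ∈ par2.ker ↔ Ev v := by
  have e : ∀ x : ℤ, (x : ZMod 2) = 0 ↔ x % 2 = 0 := fun x => by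
    rw [ZMod.intCast_zmod_eq_zero_iff_dvd]; omega
  change Multiplicative.ofAdd ((v.a : ZMod 2), (v.b : ZMod 2), (v.c : ZMod 2)) = 1 ↔ _
  simp only [ofAdd_eq_one, Prod.mk_eq_zero, e, Ev]

/-- the translation subgroup -/
def tr : Multiplicative (Fin 3 → ℤ) ≃* par2.ker where
  toFun x := ⟨⟨2 * x.toAdd 0, 2 * x.toAdd 1, 2 * x.toAdd 2, by omega⟩,
    mem_ker.2 (by simp only [Ev]; omega)⟩
  invFun v := Multiplicative.ofAdd ![v.1.a / 2, v.1.b / 2, v.1.c / 2]
  left_inv x := by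
    refine Multiplicative.toAdd.injective (funext fun i => ?_)
    fin_cases i <;> simp
  right_inv v := by
    obtain ⟨h1, h2, h3⟩ := mem_ker.1 v.2
    ext <;> simp <;> omega
  map_mul' x y := by
    have e : ∀ t : ℤ, sg (2 * t) = 1 := fun t => sg_even (by omega)
    ext <;> simp [e, mul_add]

theorem result : ∃ (G : Type) (_ : Group G), (∀ g : G, g ≠ 1 → ∀ n : ℕ, 1 ≤ n → g ^ n ≠ 1) ∧
    (∃ N : Subgroup G, N.FiniteIndex ∧ Nonempty (N ≃* Multiplicative (Fin 3 → ℤ))) ∧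
    ∀ k : ℕ, 6 ≤ k → ∃ S : Set G, S.Finite ∧ 1 ∈ S ∧
      ∀ A : Set G, A.ncard = k → A.ncard + kappa k S < (A * S).ncard := by
  refine ⟨PG, inferInstance, fun g hg n hn h =>
    torsionFree g hg (isOfFinOrder_iff_pow_eq_one.2 ⟨n, hn, h⟩),
    ⟨par2.ker, inferInstance, ⟨tr.symm⟩⟩, fun k hk => ?_⟩
  obtain ⟨X, S, hX, hS, hA⟩ := All.exists_set k hk
  refine ⟨S, S.finite_toSet, hS, fun A h => ?_⟩
  have fA : A.Finite := Set.finite_of_ncard_ne_zero (by omega)
  lift A to Finset PG using fA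
  rw [Set.ncard_coe_finset] at h
  have h1 := hA A (by omega)
  have h2 : X.card ≤ (X * S).card := Finset.card_le_card_mul_right ⟨1, hS⟩
  have h3 : kappa k (S : Set PG) ≤ (X * S).card - X.card := Nat.sInf_le
    ⟨X, X.finite_toSet, by rw [Set.ncard_coe_finset]; omega, by
      rw [← Finset.coe_mul, Set.ncard_coe_finset, Set.ncard_coe_finset]; omega⟩
  rw [← Finset.coe_mul, Set.ncard_coe_finset, Set.ncard_coe_finset, h]
  omega

end Pool.Agent.Results.MP_587a88_co.Bieberbach
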